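import Mathlib

/-!
# Spaces with few operators and the boundary of the spectrum (helper62)
-/

set_option autoImplicit false

namespace Pool.Agent.T2h62.BB

open Filter Topology Set

section

variable {X : Type*} [NormedAddCommGroup X] [NormedSpace ℂ X]

/-- `T` is strictly singular: every subspace on which `T` is bounded below is finite dimensional -/
def StrictlySingular (T : X →L[ℂ] X) : Prop :=
  ∀ Y : Submodule ℂ X, (∃ c : ℝ, 0 < c ∧ ∀ y ∈ Y, c * ‖y‖ ≤ ‖T y‖) → FiniteDimensional ℂ Y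

theorem coeff_bound (x : ℕ → X) (φ : ℕ → StrongDual ℂ X) (hx : ∀ k, ‖x k‖ ≤ 1)
    (hφ : ∀ k, ‖φ k‖ ≤ 1) (h1 : ∀ k, φ k (x k) = 1) (h0 : ∀ k j, k < j → φ k (x j) = 0)
    (N : ℕ) (c : ℕ → ℂ) : ∀ k, k < N → ‖c k‖ ≤ 2 ^ k * ‖∑ j ∈ Finset.range N, c j • x j‖ := by
  intro k
  induction k using Nat.strong_induction_on with
  | _ k ih =>
    intro hk
    set y := ∑ j ∈ Finset.range N, c j • x j with hy
    have h2 : φ k y = ∑ j ∈ Finset.range k, c j * φ k (x j) + c k := by
      rw [hy, map_sum]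
      have h3 : ∑ j ∈ Finset.range N, φ k (c j • x j) =
          ∑ j ∈ Finset.range (k + 1), φ k (c j • x j) := by
        symm
        apply Finset.sum_subset
        · intro j hj
          rw [Finset.mem_range] at hj ⊢
          omega
        · intro j _ hj
          rw [Finset.mem_range, not_lt] at hj
          rw [map_smul, h0 k j (by omega), smul_zero]
      rw [h3, Finset.sum_range_succ, map_smul, h1 k, smul_eq_mul, mul_one]
      congr 1
      refine Finset.sum_congr rfl fun j _ => ?_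
      rw [map_smul, smul_eq_mul]
    have h3 : c k = φ k y - ∑ j ∈ Finset.range k, c j * φ k (x j) := by
      rw [h2]
      ring
    have h4 : ‖φ k y‖ ≤ ‖y‖ := by
      refine ((φ k).le_opNorm y).trans ?_
      have := hφ k
      nlinarith [norm_nonneg y]
    have h5 : ‖∑ j ∈ Finset.range k, c j * φ k (x j)‖ ≤ ∑ j ∈ Finset.range k, 2 ^ j * ‖y‖ := by
      refine (norm_sum_le _ _).trans (Finset.sum_le_sum fun j hj => ?_)
      rw [Finset.mem_range] at hj
      rw [norm_mul]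
      have h6 : ‖φ k (x j)‖ ≤ 1 := by
        refine ((φ k).le_opNorm (x j)).trans ?_
        have := hφ k
        have := hx j
        nlinarith [norm_nonneg (x j), norm_nonneg (φ k)]
      have h7 := ih j hj (by omega)
      calc ‖c j‖ * ‖φ k (x j)‖ ≤ ‖c j‖ * 1 :=
            mul_le_mul_of_nonneg_left h6 (norm_nonneg _)
        _ ≤ 2 ^ j * ‖y‖ := by rw [mul_one]; exact h7
    have h6 : ∑ j ∈ Finset.range k, (2 : ℝ) ^ j * ‖y‖ = (2 ^ k - 1) * ‖y‖ := by
      rw [← Finset.sum_mul]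
      congr 1
      have := geom_sum_eq (by norm_num : (2 : ℝ) ≠ 1) k
      rw [this]
      norm_num
    rw [h3]
    refine (norm_sub_le _ _).trans ?_
    rw [h6] at h5
    linarith

/-- Kato: `S - z` is bounded below on a subspace of finite codimension -/
theorem kato (S : X →L[ℂ] X) (hS : StrictlySingular S) (z : ℂ) (hz : z ≠ 0) :
    ∃ (s : Finset (StrongDual ℂ X)) (c : ℝ), 0 < c ∧ ∀ x, (∀ f ∈ s, f x = 0) →
      c * ‖x‖ ≤ ‖S x - z • x‖ := by
  classical
  by_contra hcon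
  push Not at hcon
  have hz0 : 0 < ‖z‖ := norm_pos_iff.2 hz
  have hcon' : ∀ (s : Finset (StrongDual ℂ X)) (c : ℝ), 0 < c → ∃ x, (∀ f ∈ s, f x = 0) ∧
      ‖x‖ = 1 ∧ ‖S x - z • x‖ ≤ c := by
    intro s c hc
    obtain ⟨x, hx, h1⟩ := hcon s c hc
    have hx0 : 0 < ‖x‖ := by
      rcases (norm_nonneg x).eq_or_lt with h | h
      · rw [← h, mul_zero] at h1
        exact absurd h1 (not_lt.2 (norm_nonneg _))
      · exact h
    refine ⟨((‖x‖⁻¹ : ℝ) : ℂ) • x, fun f hf => ?_, ?_, ?_⟩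
    · rw [map_smul, hx f hf, smul_zero]
    · rw [norm_smul, Complex.norm_real, norm_inv, norm_norm, inv_mul_cancel₀ hx0.ne']
    · have h2 : S (((‖x‖⁻¹ : ℝ) : ℂ) • x) - z • (((‖x‖⁻¹ : ℝ) : ℂ) • x) =
          ((‖x‖⁻¹ : ℝ) : ℂ) • (S x - z • x) := by
        rw [map_smul, smul_sub, smul_comm z]
      rw [h2, norm_smul, Complex.norm_real, norm_inv, norm_norm, inv_mul_le_iff₀ hx0]
      linarith
  obtain ⟨F, hF1, hF2⟩ := exists_seq_of_forall_finset_exists
    (fun a : ℕ × X × StrongDual ℂ X => ‖a.2.1‖ = 1 ∧ ‖a.2.2‖ ≤ 1 ∧ a.2.2 a.2.1 = 1 ∧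
      ‖S a.2.1 - z • a.2.1‖ ≤ ‖z‖ * (1 / 4) ^ (a.1 + 1))
    (fun a b => a.1 < b.1 ∧ a.2.2 b.2.1 = 0) (by
      intro s _
      obtain ⟨x, h1, h2, h3⟩ := hcon' (s.image fun a => a.2.2)
        (‖z‖ * (1 / 4) ^ (s.sup (fun a => a.1) + 1 + 1)) (by positivity)
      obtain ⟨f, hf1, hf2⟩ := exists_dual_vector ℂ x (by rw [h2]; exact one_ne_zero)
      refine ⟨(s.sup (fun a => a.1) + 1, x, f), ⟨h2, hf1.le, ?_, h3⟩, ?_⟩
      · show f x = 1
        rw [hf2, h2]
        simp
      · intro a ha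
        refine ⟨Nat.lt_succ_of_le (Finset.le_sup (f := fun a => a.1) ha), ?_⟩
        exact h1 _ (Finset.mem_image_of_mem _ ha))
  obtain ⟨x, hx⟩ : ∃ x : ℕ → X, x = fun k => (F k).2.1 := ⟨_, rfl⟩
  obtain ⟨φ, hφ⟩ : ∃ φ : ℕ → StrongDual ℂ X, φ = fun k => (F k).2.2 := ⟨_, rfl⟩
  have hmono : StrictMono fun k => (F k).1 := fun k j h => (hF2 k j h).1
  have hx1 : ∀ k, ‖x k‖ ≤ 1 := fun k => by rw [hx]; exact (hF1 k).1.le
  have hφ1 : ∀ k, ‖φ k‖ ≤ 1 := fun k => by rw [hφ]; exact (hF1 k).2.1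
  have hφx : ∀ k, φ k (x k) = 1 := fun k => by rw [hφ, hx]; exact (hF1 k).2.2.1
  have hφ0 : ∀ k j, k < j → φ k (x j) = 0 := fun k j h => by rw [hφ, hx]; exact (hF2 k j h).2
  have hA : ∀ k, ‖S (x k) - z • x k‖ ≤ ‖z‖ * (1 / 4) ^ (k + 1) := by
    intro k
    have h1 := (hF1 k).2.2.2
    rw [hx]
    refine h1.trans (mul_le_mul_of_nonneg_left ?_ hz0.le)
    exact pow_le_pow_of_le_one (by norm_num) (by norm_num) (by
      have := hmono.id_le k
      simp only [id] at this
      omega)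
  have hb := coeff_bound x φ hx1 hφ1 hφx hφ0
  have hspan : ∀ y ∈ Submodule.span ℂ (range x), ∃ (N : ℕ) (c : ℕ → ℂ),
      y = ∑ j ∈ Finset.range N, c j • x j := by
    intro y hy
    rw [Finsupp.mem_span_range_iff_exists_finsupp] at hy
    obtain ⟨c, rfl⟩ := hy
    refine ⟨c.support.sup id + 1, c, ?_⟩
    rw [Finsupp.sum]
    apply Finset.sum_subset
    · intro j hj
      rw [Finset.mem_range]
      exact Nat.lt_succ_of_le (Finset.le_sup (f := id) hj)
    · intro j _ hj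
      rw [Finsupp.notMem_support_iff.1 hj, zero_smul]
  have hlow : ∀ y ∈ Submodule.span ℂ (range x), ‖z‖ / 2 * ‖y‖ ≤ ‖S y‖ := by
    intro y hy
    obtain ⟨N, c, rfl⟩ := hspan y hy
    set y := ∑ j ∈ Finset.range N, c j • x j with hydef
    have h1 : S y - z • y = ∑ j ∈ Finset.range N, c j • (S (x j) - z • x j) := by
      rw [hydef, map_sum, Finset.smul_sum, ← Finset.sum_sub_distrib]
      refine Finset.sum_congr rfl fun j _ => ?_
      rw [map_smul, smul_sub, smul_comm z]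
    have h2 : ‖S y - z • y‖ ≤ ∑ j ∈ Finset.range N, (‖z‖ * ‖y‖ / 4) * (1 / 2) ^ j := by
      rw [h1]
      refine (norm_sum_le _ _).trans (Finset.sum_le_sum fun j hj => ?_)
      rw [Finset.mem_range] at hj
      rw [norm_smul]
      calc ‖c j‖ * ‖S (x j) - z • x j‖ ≤ (2 ^ j * ‖y‖) * (‖z‖ * (1 / 4) ^ (j + 1)) :=
            mul_le_mul (hb N c j hj) (hA j) (norm_nonneg _) (by positivity)
        _ = (‖z‖ * ‖y‖ / 4) * (1 / 2) ^ j := by
            have h3 : (1 / 2 : ℝ) ^ j = 2 ^ j * (1 / 4) ^ j := by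
              rw [← mul_pow]
              norm_num
            rw [h3, pow_succ]
            ring
    have h3 : ∑ j ∈ Finset.range N, (1 / 2 : ℝ) ^ j ≤ 2 := by
      have h4 := geom_sum_eq (by norm_num : (1 / 2 : ℝ) ≠ 1) N
      rw [h4]
      have h5 : (0 : ℝ) ≤ (1 / 2) ^ N := by positivity
      rw [div_le_iff_of_neg (by norm_num)]
      linarith
    rw [← Finset.mul_sum] at h2
    have h4 : ‖S y - z • y‖ ≤ ‖z‖ / 2 * ‖y‖ := by
      refine h2.trans ?_
      have h5 : 0 ≤ ‖z‖ * ‖y‖ / 4 := by positivity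
      nlinarith
    have h5 : ‖z‖ * ‖y‖ = ‖z • y‖ := (norm_smul _ _).symm
    have h6 : ‖z • y‖ ≤ ‖S y‖ + ‖S y - z • y‖ := by
      have h7 : z • y = S y - (S y - z • y) := by abel
      calc ‖z • y‖ = ‖S y - (S y - z • y)‖ := by rw [← h7]
        _ ≤ _ := norm_sub_le _ _
    linarith
  have hfin := hS (Submodule.span ℂ (range x)) ⟨‖z‖ / 2, by positivity, hlow⟩
  have hli : LinearIndependent ℂ x := by
    rw [linearIndependent_iff]
    intro l hl
    ext k
    by_contra hk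
    have hk' : k < l.support.sup id + 1 :=
      Nat.lt_succ_of_le (Finset.le_sup (f := id) (Finsupp.mem_support_iff.2 hk))
    have h1 := hb (l.support.sup id + 1) l k hk'
    have h2 : ∑ j ∈ Finset.range (l.support.sup id + 1), l j • x j = 0 := by
      rw [← hl, Finsupp.linearCombination_apply, Finsupp.sum]
      symm
      apply Finset.sum_subset
      · intro j hj
        rw [Finset.mem_range]
        exact Nat.lt_succ_of_le (Finset.le_sup (f := id) hj)
      · intro j _ hj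
        rw [Finsupp.notMem_support_iff.1 hj, zero_smul]
    rw [h2, norm_zero, mul_zero] at h1
    exact hk (norm_le_zero_iff.1 h1)
  have hli' := linearIndependent_span hli
  have : Finite ℕ := hli'.finite
  exact not_finite ℕ

/-- the range of `S - z` is closed -/
theorem isClosed_range [CompleteSpace X] (S : X →L[ℂ] X) (hS : StrictlySingular S) (z : ℂ)
    (hz : z ≠ 0) : IsClosed (range fun x => S x - z • x) := by
  classical
  obtain ⟨s, c, hc, hs⟩ := kato S hS z hz
  obtain ⟨A, hA⟩ : ∃ A : X →L[ℂ] X, A = S - z • ContinuousLinearMap.id ℂ X := ⟨_, rfl⟩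
  have hAx : ∀ x, A x = S x - z • x := fun x => by rw [hA]; rfl
  obtain ⟨L, hL⟩ : ∃ L : X →L[ℂ] (s → ℂ), L = ContinuousLinearMap.pi fun f : s => f.1 := ⟨_, rfl⟩
  have hLx : ∀ x f, L x f = f.1 x := fun x f => by rw [hL]; rfl
  obtain ⟨M, hM⟩ : ∃ M : Submodule ℂ X, M = LinearMap.ker L.toLinearMap := ⟨_, rfl⟩
  have hMc : IsClosed (M : Set X) := by
    rw [hM]
    exact L.isClosed_ker
  have hMx : ∀ x ∈ M, c * ‖x‖ ≤ ‖A x‖ := by
    intro x hx
    rw [hAx]
    apply hs x
    intro f hf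
    rw [hM, LinearMap.mem_ker] at hx
    have h1 := hLx x ⟨f, hf⟩
    have h2 : L x = 0 := hx
    rw [h2] at h1
    exact h1.symm
  have : CompleteSpace M := hMc.completeSpace_coe
  have h1 : IsClosed ((M.map A.toLinearMap : Submodule ℂ X) : Set X) := by
    have h2 : AntilipschitzWith (Real.toNNReal c⁻¹) (A.comp M.subtypeL) := by
      apply ContinuousLinearMap.antilipschitz_of_bound
      intro x
      rw [Real.coe_toNNReal _ (by positivity)]
      have h3 := hMx x.1 x.2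
      have h4 : ‖x‖ = ‖(x : X)‖ := rfl
      rw [h4]
      have h5 : ‖(A.comp M.subtypeL) x‖ = ‖A x‖ := rfl
      rw [h5]
      calc ‖(x : X)‖ = c⁻¹ * (c * ‖(x : X)‖) := by field_simp
        _ ≤ c⁻¹ * ‖A x‖ := mul_le_mul_of_nonneg_left h3 (by positivity)
    have h3 := h2.isClosed_range (A.comp M.subtypeL).uniformContinuous
    convert h3 using 1
    ext y
    simp only [Submodule.map_coe, mem_image, SetLike.mem_coe, mem_range]
    constructor
    · rintro ⟨x, hx, rfl⟩
      exact ⟨⟨x, hx⟩, rfl⟩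
    · rintro ⟨x, rfl⟩
      exact ⟨x.1, x.2, rfl⟩
  obtain ⟨F, hF⟩ := Submodule.exists_isCompl M
  have hq : FiniteDimensional ℂ (X ⧸ M) := by
    rw [hM]
    exact LinearEquiv.finiteDimensional (LinearMap.quotKerEquivRange L.toLinearMap).symm
  have : FiniteDimensional ℂ F :=
    LinearEquiv.finiteDimensional (Submodule.quotientEquivOfIsCompl M F hF)
  have h4 := Submodule.isClosed_sup_finiteDimensional (M.map A.toLinearMap)
    (F.map A.toLinearMap) h1
  rw [← Submodule.map_sup, hF.sup_eq_top] at h4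
  convert h4 using 1
  ext y
  simp only [Submodule.map_coe, Submodule.top_coe, image_univ, mem_range]
  constructor
  · rintro ⟨x, rfl⟩
    exact ⟨x, hAx x⟩
  · rintro ⟨x, rfl⟩
    exact ⟨x, (hAx x).symm⟩

/-- at a boundary point of the spectrum `T - z` is not surjective -/
theorem not_surjective [CompleteSpace X] (T : X →L[ℂ] X) (z : ℂ)
    (hz : z ∈ frontier (spectrum ℂ T)) : ¬ Function.Surjective fun x => T x - z • x := by
  intro hsurj
  obtain ⟨A, hA⟩ : ∃ A : X →L[ℂ] X, A = T - z • ContinuousLinearMap.id ℂ X := ⟨_, rfl⟩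
  have hAx : ∀ x, A x = T x - z • x := fun x => by rw [hA]; rfl
  have hAs : Function.Surjective A := fun y => by
    obtain ⟨x, hx⟩ := hsurj y
    exact ⟨x, by rw [hAx]; exact hx⟩
  have hmem : z ∈ spectrum ℂ T := by
    have h1 := frontier_subset_closure hz
    rwa [(spectrum.isClosed T).closure_eq] at h1
  obtain ⟨C, hC0, hC⟩ := A.exists_preimage_norm_le hAs
  have hcl : z ∈ closure (spectrum ℂ T)ᶜ := by
    have h1 : frontier (spectrum ℂ T) = closure (spectrum ℂ T) ∩ closure (spectrum ℂ T)ᶜ :=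
      frontier_eq_closure_inter_closure
    rw [h1] at hz
    exact hz.2
  obtain ⟨w, hw, hzw⟩ := Metric.mem_closure_iff.1 hcl (1 / (4 * C)) (by positivity)
  have hinj : ∀ x, T x - w • x = 0 → x = 0 := by
    intro x hx
    have h1 : IsUnit (algebraMap ℂ (X →L[ℂ] X) w - T) := by
      rw [mem_compl_iff, spectrum.mem_iff, not_not] at hw
      exact hw
    obtain ⟨u, hu⟩ := h1
    have h2 : (u.inv * u.val) x = x := by
      rw [u.inv_val]
      rfl
    rw [← h2]
    have h3 : u.val x = 0 := by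
      rw [hu]
      have h4 : (algebraMap ℂ (X →L[ℂ] X) w - T) x = w • x - T x := rfl
      rw [h4]
      rw [← neg_sub, hx, neg_zero]
    show u.inv (u.val x) = 0
    rw [h3, map_zero]
  -- `A` is injective
  have hAi : ∀ n, A n = 0 → n = 0 := by
    intro n hn
    choose g hg1 hg2 using hC
    obtain ⟨δ, hδ⟩ : ∃ δ : ℂ, δ = w - z := ⟨_, rfl⟩
    have hδn : C * ‖δ‖ ≤ 1 / 4 := by
      have h1 : ‖δ‖ < 1 / (4 * C) := by
        rw [hδ, ← dist_eq_norm, dist_comm]
        exact hzw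
      calc C * ‖δ‖ ≤ C * (1 / (4 * C)) := mul_le_mul_of_nonneg_left h1.le hC0.le
        _ = 1 / 4 := by field_simp
    obtain ⟨zz, hz0, hzs⟩ : ∃ zz : ℕ → X, zz 0 = n ∧ ∀ k, zz (k + 1) = g (δ • zz k) := by
      refine ⟨fun k => Nat.rec n (fun _ y => g (δ • y)) k, rfl, fun k => rfl⟩
    have hb : ∀ k, ‖zz k‖ ≤ ‖n‖ * (1 / 4) ^ k := by
      intro k
      induction k with
      | zero => rw [hz0]; simp
      | succ k ih =>
        rw [hzs]
        refine (hg2 _).trans ?_
        rw [norm_smul, ← mul_assoc, pow_succ]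
        calc C * ‖δ‖ * ‖zz k‖ ≤ 1 / 4 * (‖n‖ * (1 / 4) ^ k) :=
              mul_le_mul hδn ih (norm_nonneg _) (by norm_num)
          _ = ‖n‖ * ((1 / 4) ^ k * (1 / 4)) := by ring
    have hgs : Summable fun k : ℕ => ‖n‖ * (1 / 4 : ℝ) ^ k :=
      (summable_geometric_of_lt_one (by norm_num) (by norm_num)).mul_left _
    have hsum : Summable zz := Summable.of_norm_bounded hgs hb
    have hsum' : Summable fun k => zz (k + 1) := (summable_nat_add_iff 1).2 hsum
    have h1 : ∑' k, zz k = n + ∑' k, zz (k + 1) := by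
      rw [hsum.tsum_eq_zero_add, hz0]
    have h2 : A (∑' k, zz k) = δ • ∑' k, zz k := by
      rw [h1, map_add, hn, zero_add, A.map_tsum hsum', ← h1, ← hsum.tsum_const_smul]
      refine tsum_congr fun k => ?_
      rw [hzs, hg1]
    have h3 : ∑' k, zz k = 0 := by
      apply hinj
      rw [hAx, hδ, sub_smul] at h2
      rw [sub_eq_iff_eq_add] at h2
      rw [h2]
      abel
    have h4 : ‖∑' k, zz (k + 1)‖ ≤ ‖n‖ / 3 := by
      have h5 : HasSum (fun k : ℕ => ‖n‖ * (1 / 4 : ℝ) ^ (k + 1)) (‖n‖ / 3) := by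
        have h6 := (hasSum_geometric_of_lt_one (r := (1 / 4 : ℝ)) (by norm_num)
          (by norm_num)).mul_left (‖n‖ * (1 / 4))
        have h7 : (fun k : ℕ => ‖n‖ * (1 / 4 : ℝ) ^ (k + 1)) =
            fun k => ‖n‖ * (1 / 4) * (1 / 4 : ℝ) ^ k := by
          funext k
          rw [pow_succ]
          ring
        have h8 : ‖n‖ / 3 = ‖n‖ * (1 / 4) * (1 - 1 / 4)⁻¹ := by
          have h9 : ((1 : ℝ) - 1 / 4)⁻¹ = 4 / 3 := by norm_num
          rw [h9]
          ring
        rw [h7, h8]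
        exact h6
      exact tsum_of_norm_bounded h5 fun k => hb (k + 1)
    rw [h3] at h1
    have h5 : n = -∑' k, zz (k + 1) := eq_neg_of_add_eq_zero_left h1.symm
    have h6 : ‖n‖ ≤ ‖n‖ / 3 := by
      calc ‖n‖ = ‖-∑' k, zz (k + 1)‖ := congrArg norm h5
        _ = ‖∑' k, zz (k + 1)‖ := norm_neg _
        _ ≤ _ := h4
    have h7 : ‖n‖ = 0 := by linarith [norm_nonneg n]
    exact norm_eq_zero.1 h7
  -- so `z` is not in the spectrum
  apply hmem
  show IsUnit _
  have hbij : Function.Bijective A :=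
    ⟨(injective_iff_map_eq_zero A).2 hAi, hAs⟩
  have h1 : IsUnit A := by
    rw [ContinuousLinearMap.isUnit_iff_bijective]
    exact hbij
  have h2 : algebraMap ℂ (X →L[ℂ] X) z - T = -A := by
    rw [hA, neg_sub]
    rfl
  rw [h2]
  exact h1.neg

/-- separation of a point from a closed subspace -/
theorem exists_functional_ne (p : Submodule ℂ X) (hp : IsClosed (p : Set X)) (x : X)
    (hx : x ∉ p) : ∃ f : StrongDual ℂ X, f x ≠ 0 ∧ ∀ y ∈ p, f y = 0 := by
  have := hp
  have h1 : (Submodule.Quotient.mk x : X ⧸ p) ≠ 0 := by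
    rw [Ne, Submodule.Quotient.mk_eq_zero]
    exact hx
  obtain ⟨g, hg⟩ := SeparatingDual.exists_ne_zero (R := ℂ) h1
  refine ⟨g.comp p.mkQL, hg, ?_⟩
  intro y hy
  show g (Submodule.Quotient.mk y) = 0
  rw [(Submodule.Quotient.mk_eq_zero p).2 hy, map_zero]

/-- a closed proper subspace is contained in the kernel of a nonzero functional -/
theorem exists_functional (p : Submodule ℂ X) (hp : IsClosed (p : Set X)) (hpt : p ≠ ⊤) :
    ∃ f : StrongDual ℂ X, f ≠ 0 ∧ ∀ x ∈ p, f x = 0 := by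
  obtain ⟨x, hx⟩ : ∃ x, x ∉ p := by
    by_contra h
    push Not at h
    exact hpt (Submodule.eq_top_iff'.2 h)
  obtain ⟨f, h1, h2⟩ := exists_functional_ne p hp x hx
  exact ⟨f, fun h => h1 (by rw [h]; rfl), h2⟩

/-- property (B): the boundary of the spectrum of every operator `T` consists of eigenvalues of the
adjoint `f ↦ f ∘ T` -/
def PropB (X : Type*) [NormedAddCommGroup X] [NormedSpace ℂ X] : Prop :=
  ∀ T : X →L[ℂ] X, ∀ z ∈ frontier (spectrum ℂ T), ∃ f : StrongDual ℂ X, f ≠ 0 ∧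
    ∀ x, f (T x) = z * f x

/-- the Grothendieck property: weak* convergent sequences in the dual converge weakly -/
def Grothendieck (X : Type*) [NormedAddCommGroup X] [NormedSpace ℂ X] : Prop :=
  ∀ (f : ℕ → StrongDual ℂ X) (g : StrongDual ℂ X),
    (∀ x, Tendsto (fun n => f n x) atTop (𝓝 (g x))) →
    ∀ φ : StrongDual ℂ (StrongDual ℂ X), Tendsto (fun n => φ (f n)) atTop (𝓝 (φ g))

/-- the Dunford-Pettis property: if `x n → 0` weakly and `f n → 0` weakly then `f n (x n) → 0` -/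
def DunfordPettis (X : Type*) [NormedAddCommGroup X] [NormedSpace ℂ X] : Prop :=
  ∀ (x : ℕ → X) (f : ℕ → StrongDual ℂ X),
    (∀ g : StrongDual ℂ X, Tendsto (fun n => g (x n)) atTop (𝓝 0)) →
    (∀ φ : StrongDual ℂ (StrongDual ℂ X), Tendsto (fun n => φ (f n)) atTop (𝓝 0)) →
    Tendsto (fun n => f n (x n)) atTop (𝓝 0)

/-- weakly Cauchy sequences -/
def WeaklyCauchy {X : Type*} [NormedAddCommGroup X] [NormedSpace ℂ X] (x : ℕ → X) : Prop :=
  ∀ f : StrongDual ℂ X, ∃ l : ℂ, Tendsto (fun n => f (x n)) atTop (𝓝 l)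

/-- every operator is a scalar plus a strictly singular operator with separable range -/
def FewOperators (X : Type*) [NormedAddCommGroup X] [NormedSpace ℂ X] : Prop :=
  ∀ T : X →L[ℂ] X, ∃ a : ℂ, StrictlySingular (T - a • ContinuousLinearMap.id ℂ X) ∧
    TopologicalSpace.IsSeparable (range (T - a • ContinuousLinearMap.id ℂ X))

theorem propB [CompleteSpace X] (hns : ¬ TopologicalSpace.SeparableSpace X)
    (hop : FewOperators X) : PropB X := by
  intro T z hz
  obtain ⟨a, ha, hsep⟩ := hop T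
  obtain ⟨S, hS⟩ : ∃ S : X →L[ℂ] X, S = T - a • ContinuousLinearMap.id ℂ X := ⟨_, rfl⟩
  rw [← hS] at ha hsep
  have hSx : ∀ x, S x = T x - a • x := fun x => by rw [hS]; rfl
  by_cases haz : z = a
  · obtain ⟨p, hp⟩ : ∃ p : Submodule ℂ X, p = (LinearMap.range S.toLinearMap).topologicalClosure :=
      ⟨_, rfl⟩
    have hpc : IsClosed (p : Set X) := by
      rw [hp]
      exact Submodule.isClosed_topologicalClosure _
    have hpt : p ≠ ⊤ := by
      intro h
      apply hns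
      have h1 : TopologicalSpace.IsSeparable (p : Set X) := by
        rw [hp, Submodule.topologicalClosure_coe]
        exact hsep.closure
      rw [h, Submodule.top_coe] at h1
      exact TopologicalSpace.isSeparable_univ_iff.1 h1
    obtain ⟨f, hf, h1⟩ := exists_functional p hpc hpt
    refine ⟨f, hf, fun x => ?_⟩
    have h2 : S x ∈ p := by
      rw [hp]
      exact Submodule.le_topologicalClosure _ ⟨x, rfl⟩
    have h3 := h1 _ h2
    rw [hSx, map_sub, map_smul, sub_eq_zero, smul_eq_mul] at h3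
    rw [h3, haz]
  · have hza : z - a ≠ 0 := sub_ne_zero.2 haz
    have h1 := isClosed_range S ha (z - a) hza
    have h2 := not_surjective T z hz
    have h3 : ∀ x, S x - (z - a) • x = T x - z • x := by
      intro x
      rw [hSx, sub_smul]
      abel
    obtain ⟨A, hA⟩ : ∃ A : X →L[ℂ] X, A = T - z • ContinuousLinearMap.id ℂ X := ⟨_, rfl⟩
    have hAx : ∀ x, A x = T x - z • x := fun x => by rw [hA]; rfl
    obtain ⟨p, hp⟩ : ∃ p : Submodule ℂ X, p = LinearMap.range A.toLinearMap := ⟨_, rfl⟩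
    have hps : (p : Set X) = range fun x => S x - (z - a) • x := by
      rw [hp]
      ext y
      constructor
      · rintro ⟨x, rfl⟩
        exact ⟨x, (h3 x).trans (hAx x).symm⟩
      · rintro ⟨x, rfl⟩
        exact ⟨x, (hAx x).trans (h3 x).symm⟩
    have hpc : IsClosed (p : Set X) := by
      rw [hps]
      exact h1
    have hpt : p ≠ ⊤ := by
      intro h
      apply h2
      intro y
      have h4 : y ∈ (p : Set X) := by rw [h]; trivial
      rw [hps] at h4
      obtain ⟨x, hx⟩ := h4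
      exact ⟨x, by rw [← hx]; exact (h3 x).symm⟩
    obtain ⟨f, hf, h4⟩ := exists_functional p hpc hpt
    refine ⟨f, hf, fun x => ?_⟩
    have h5 : A x ∈ p := by
      rw [hp]
      exact ⟨x, rfl⟩
    have h6 := h4 _ h5
    rw [hAx, map_sub, map_smul, sub_eq_zero, smul_eq_mul] at h6
    exact h6

end

section

variable {Z : Type*} [NormedAddCommGroup Z] [NormedSpace ℂ Z] [CompleteSpace Z]

theorem not_grothendieck (z : ℕ → Z) (hz : WeaklyCauchy z)
    (hz' : ¬ ∃ z0 : Z, ∀ f : StrongDual ℂ Z, Tendsto (fun n => f (z n)) atTop (𝓝 (f z0))) :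
    ¬ Grothendieck (StrongDual ℂ Z) := by
  intro hG
  choose l hl using hz
  obtain ⟨J, hJ⟩ : ∃ J : Z →L[ℂ] StrongDual ℂ (StrongDual ℂ Z),
    J = (NormedSpace.inclusionInDoubleDualLi ℂ).toContinuousLinearMap := ⟨_, rfl⟩
  have hJx : ∀ (y : Z) (f : StrongDual ℂ Z), J y f = f y := fun y f => by rw [hJ]; rfl
  have hJi : Isometry J := by
    rw [hJ]
    exact (NormedSpace.inclusionInDoubleDualLi ℂ).isometry
  have hlim : Tendsto (fun n f => J (z n) f) atTop (𝓝 l) := by
    rw [tendsto_pi_nhds]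
    intro f
    simp only [hJx]
    exact hl f
  obtain ⟨G, hGl⟩ : ∃ G : StrongDual ℂ (StrongDual ℂ Z), ∀ f, G f = l f :=
    ⟨continuousLinearMapOfTendsto (fun n => J (z n)) hlim, fun f => rfl⟩
  have h1 : ∀ φ : StrongDual ℂ (StrongDual ℂ (StrongDual ℂ Z)),
      Tendsto (fun n => φ (J (z n))) atTop (𝓝 (φ G)) := by
    apply hG
    intro f
    rw [hGl]
    simp only [hJx]
    exact hl f
  obtain ⟨p, hp⟩ : ∃ p : Submodule ℂ (StrongDual ℂ (StrongDual ℂ Z)),
    p = LinearMap.range J.toLinearMap := ⟨_, rfl⟩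
  have hpc : IsClosed (p : Set (StrongDual ℂ (StrongDual ℂ Z))) := by
    have h2 := hJi.isClosedEmbedding.isClosed_range
    rw [hp]
    exact h2
  have hGp : G ∈ p := by
    by_contra hGp
    obtain ⟨g, hg, hg0⟩ := exists_functional_ne p hpc G hGp
    have h3 := h1 g
    have h4 : ∀ n, g (J (z n)) = 0 := by
      intro n
      apply hg0
      rw [hp]
      exact ⟨z n, rfl⟩
    simp only [h4] at h3
    have h5 := tendsto_nhds_unique h3 tendsto_const_nhds
    exact hg h5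
  rw [hp] at hGp
  obtain ⟨z0, hz0⟩ := hGp
  apply hz'
  refine ⟨z0, fun f => ?_⟩
  have h2 : f z0 = l f := by
    rw [← hJx z0 f, ← hGl f]
    exact congrArg (fun H : StrongDual ℂ (StrongDual ℂ Z) => H f) hz0
  rw [h2]
  exact hl f

theorem not_dunfordPettis (z : ℕ → Z) (hz : WeaklyCauchy z)
    (hz' : ¬ ∃ z0 : Z, ∀ f : StrongDual ℂ Z, Tendsto (fun n => f (z n)) atTop (𝓝 (f z0)))
    (hros : ∀ x : ℕ → StrongDual ℂ Z, (∃ C, ∀ n, ‖x n‖ ≤ C) →
      ∃ φ : ℕ → ℕ, StrictMono φ ∧ WeaklyCauchy fun n => x (φ n)) :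
    ¬ DunfordPettis (StrongDual ℂ Z) := by
  intro hD
  obtain ⟨J, hJ⟩ : ∃ J : Z →L[ℂ] StrongDual ℂ (StrongDual ℂ Z),
    J = (NormedSpace.inclusionInDoubleDualLi ℂ).toContinuousLinearMap := ⟨_, rfl⟩
  have hJx : ∀ (y : Z) (f : StrongDual ℂ Z), J y f = f y := fun y f => by rw [hJ]; rfl
  -- `z` is not a Cauchy sequence
  have hnc : ¬ CauchySeq z := by
    intro hc
    obtain ⟨z0, hz0⟩ := cauchySeq_tendsto_of_complete hc
    exact hz' ⟨z0, fun f => (f.continuous.tendsto z0).comp hz0⟩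
  obtain ⟨ε, hε, hne⟩ : ∃ ε : ℝ, 0 < ε ∧ ∀ N : ℕ, ∃ m n : ℕ, N ≤ m ∧ N ≤ n ∧
      ε ≤ ‖z m - z n‖ := by
    rw [Metric.cauchySeq_iff] at hnc
    push Not at hnc
    obtain ⟨ε, hε, h⟩ := hnc
    refine ⟨ε, hε, fun N => ?_⟩
    obtain ⟨m, hm, n, hn, h1⟩ := h N
    exact ⟨m, n, hm, hn, by rwa [dist_eq_norm] at h1⟩
  choose m n hm hn hmn using hne
  have hmt : Tendsto m atTop atTop := tendsto_atTop_mono hm tendsto_id
  have hnt : Tendsto n atTop atTop := tendsto_atTop_mono hn tendsto_id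
  obtain ⟨u, hu⟩ : ∃ u : ℕ → Z, u = fun k => z (m k) - z (n k) := ⟨_, rfl⟩
  have hu0 : ∀ f : StrongDual ℂ Z, Tendsto (fun k => f (u k)) atTop (𝓝 0) := by
    intro f
    obtain ⟨l, hl⟩ := hz f
    have h1 := (hl.comp hmt).sub (hl.comp hnt)
    rw [sub_self] at h1
    refine h1.congr fun k => ?_
    rw [hu]
    simp only [Function.comp_apply, map_sub]
  have huε : ∀ k, ε ≤ ‖u k‖ := fun k => by rw [hu]; exact hmn k
  have hx : ∀ k, ∃ x : StrongDual ℂ Z, ‖x‖ ≤ 1 ∧ x (u k) = ‖u k‖ := fun k => by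
    obtain ⟨g, h1, h2⟩ := exists_dual_vector'' ℂ (u k)
    exact ⟨g, h1, h2⟩
  choose x hx1 hxu using hx
  obtain ⟨φ, hφ, hc⟩ := hros x ⟨1, hx1⟩
  have hφt := hφ.tendsto_atTop
  have hν : ∀ j, ∃ i, j ≤ i ∧ ‖x (φ j) (u (φ i))‖ ≤ ε / 2 := by
    intro j
    have h1 : Tendsto (fun i => ‖x (φ j) (u (φ i))‖) atTop (𝓝 0) := by
      have h2 := ((hu0 (x (φ j))).comp hφt).norm
      rw [norm_zero] at h2
      exact h2
    have h2 : ∀ᶠ i in atTop, ‖x (φ j) (u (φ i))‖ ≤ ε / 2 :=
      (h1.eventually_lt_const (by linarith : (0 : ℝ) < ε / 2)).mono fun i hi => hi.le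
    obtain ⟨i, h3, h4⟩ := (h2.and (eventually_ge_atTop j)).exists
    exact ⟨i, h4, h3⟩
  choose ν hν1 hν2 using hν
  have hνt : Tendsto ν atTop atTop := tendsto_atTop_mono hν1 tendsto_id
  have h1 := hD (fun j => x (φ (ν j)) - x (φ j)) (fun j => J (u (φ (ν j)))) ?_ ?_
  · have h2 : ∀ j, ε / 2 ≤ ‖J (u (φ (ν j))) (x (φ (ν j)) - x (φ j))‖ := by
      intro j
      rw [hJx]
      have h3 : (x (φ (ν j)) - x (φ j)) (u (φ (ν j))) =
          (‖u (φ (ν j))‖ : ℂ) - x (φ j) (u (φ (ν j))) := by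
        rw [← hxu]
        rfl
      rw [h3]
      have h4 := norm_sub_norm_le (‖u (φ (ν j))‖ : ℂ) (x (φ j) (u (φ (ν j))))
      rw [Complex.norm_real, norm_norm] at h4
      linarith [huε (φ (ν j)), hν2 j]
    have h3 := h1.norm
    rw [norm_zero] at h3
    have h4 := ge_of_tendsto' h3 h2
    linarith
  · intro F
    obtain ⟨l, hl⟩ := hc F
    have h2 := (hl.comp hνt).sub hl
    rw [sub_self] at h2
    refine h2.congr fun j => ?_
    simp only [Function.comp_apply, map_sub]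
  · intro Φ
    have h2 := ((hu0 (Φ.comp J)).comp hφt).comp hνt
    exact h2

end

end Pool.Agent.T2h62.BB
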