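import Pool.Agent.T2h62.BB.Core

/-!
# Property (B) and separable complemented subspaces (helper62)
-/

set_option autoImplicit false

namespace Pool.Agent.T2h62.BB

open Filter Topology Set

section

variable {X : Type*} [NormedAddCommGroup X] [NormedSpace ℂ X]

theorem exists_triangular (Y : Submodule ℂ X) (hsep : TopologicalSpace.IsSeparable (Y : Set X))
    (hinf : ¬ FiniteDimensional ℂ Y) : ∃ (y : ℕ → X) (f : ℕ → StrongDual ℂ X), (∀ n, y n ∈ Y) ∧
      (∀ n m, m < n → f n (y m) = 0) ∧ (∀ n, f n (y n) ≠ 0) ∧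
      (Y : Set X) ⊆ closure (Submodule.span ℂ (range y) : Set X) := by
  obtain ⟨c, hcY, hcc, hcd⟩ := hsep.exists_countable_dense_subset
  obtain ⟨b, hbc, hbs, hbl⟩ := exists_linearIndependent ℂ c
  have hbcount : b.Countable := hcc.mono hbc
  have hbinf : b.Infinite := by
    intro hfin
    apply hinf
    have h1 : FiniteDimensional ℂ (Submodule.span ℂ b) := FiniteDimensional.span_of_finite ℂ hfin
    have h2 : IsClosed (Submodule.span ℂ b : Set X) := Submodule.closed_of_finiteDimensional _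
    have h3 : Y ≤ Submodule.span ℂ b := by
      intro x hx
      have h4 := hcd hx
      have h5 : c ⊆ (Submodule.span ℂ b : Set X) := by
        rw [hbs]
        exact Submodule.subset_span
      exact closure_minimal h5 h2 h4
    exact Submodule.finiteDimensional_of_le h3
  have : Countable b := hbcount.to_subtype
  have : Infinite b := hbinf.to_subtype
  obtain ⟨hden⟩ := nonempty_denumerable b
  have e : ℕ ≃ b := (Denumerable.eqv b).symm
  have hli : LinearIndependent ℂ fun n : ℕ => (e n : X) := hbl.comp e e.injective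
  have hrange : range (fun n : ℕ => (e n : X)) = b := by
    ext x
    constructor
    · rintro ⟨n, rfl⟩
      exact (e n).2
    · intro hx
      exact ⟨e.symm ⟨x, hx⟩, by simp⟩
  have hf : ∀ n, ∃ f : StrongDual ℂ X, f (e n) ≠ 0 ∧ ∀ m, m < n → f (e m) = 0 := by
    intro n
    have h1 : (e n : X) ∉ Submodule.span ℂ ((fun n : ℕ => (e n : X)) '' {m | m < n}) :=
      hli.notMem_span_image (by simp)
    have hfs : ((fun n : ℕ => (e n : X)) '' {m | m < n}).Finite := (finite_lt_nat n).image _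
    have h2 : FiniteDimensional ℂ (Submodule.span ℂ ((fun n : ℕ => (e n : X)) '' {m | m < n})) :=
      FiniteDimensional.span_of_finite ℂ hfs
    obtain ⟨f, h3, h4⟩ := exists_functional_ne _ (Submodule.closed_of_finiteDimensional _) _ h1
    exact ⟨f, h3, fun m hm => h4 _ (Submodule.subset_span ⟨m, hm, rfl⟩)⟩
  choose f hf1 hf2 using hf
  refine ⟨fun n => e n, f, fun n => hcY (hbc (e n).2), hf2, hf1, ?_⟩
  rw [hrange, hbs]
  intro x hx
  exact closure_mono Submodule.subset_span (hcd hx)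

/-- a triangular sum of rank one operators, with rapid decay, is quasinilpotent: the numbers
`2 ^ (-N)` are not in its spectrum -/
theorem isUnit_triangular [CompleteSpace X] (y : ℕ → X) (g : ℕ → StrongDual ℂ X)
    (hg : ∀ n m, m ≤ n → g n (y m) = 0)
    (hb : ∀ n, ‖(g n).smulRight (y n)‖ ≤ (1 / 2) ^ (n + 1) * (1 / 8) ^ ((n + 1) ^ 2)) (N : ℕ) :
    IsUnit (((1 / 2 : ℂ) ^ N) • (1 : X →L[ℂ] X) - ∑' n, (g n).smulRight (y n)) := by
  have hs : Summable fun n : ℕ => (1 / 2 : ℝ) ^ (n + 1) := by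
    have h1 := (summable_geometric_of_lt_one (r := (1 / 2 : ℝ)) (by norm_num)
      (by norm_num)).mul_right (1 / 2)
    exact h1.congr fun n => by rw [pow_succ]
  have hle : ∀ n : ℕ, (1 / 2 : ℝ) ^ (n + 1) * (1 / 8) ^ ((n + 1) ^ 2) ≤ (1 / 2) ^ (n + 1) :=
    fun n => mul_le_of_le_one_right (by positivity) (pow_le_one₀ (by norm_num) (by norm_num))
  have hsr : Summable fun n => (g n).smulRight (y n) :=
    Summable.of_norm_bounded hs fun n => (hb n).trans (hle n)
  have ht : ∀ M : ℕ, ∑' n, (1 / 2 : ℝ) ^ (n + M + 1) ≤ 1 := by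
    intro M
    have h1 : ∀ n : ℕ, (1 / 2 : ℝ) ^ (n + M + 1) = (1 / 2) ^ n * ((1 / 2) ^ (M + 1)) := by
      intro n
      rw [add_assoc, pow_add]
    rw [tsum_congr h1, tsum_mul_right, tsum_geometric_of_lt_one (by norm_num) (by norm_num)]
    have h2 : ((1 : ℝ) / 2) ^ M ≤ 1 := pow_le_one₀ (by norm_num) (by norm_num)
    have h3 : (1 - (1 / 2 : ℝ))⁻¹ = 2 := by norm_num
    rw [pow_succ, h3]
    linarith
  obtain ⟨K, hK⟩ : ∃ K : X →L[ℂ] X, K = ∑ n ∈ Finset.range N, (g n).smulRight (y n) := ⟨_, rfl⟩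
  have hKn : ‖K‖ ≤ 1 := by
    rw [hK]
    refine (norm_sum_le _ _).trans ?_
    calc ∑ n ∈ Finset.range N, ‖(g n).smulRight (y n)‖
        ≤ ∑ n ∈ Finset.range N, (1 / 2 : ℝ) ^ (n + 1) :=
          Finset.sum_le_sum fun n _ => (hb n).trans (hle n)
      _ ≤ ∑' n : ℕ, (1 / 2 : ℝ) ^ (n + 1) := hs.sum_le_tsum _ fun n _ => by positivity
      _ ≤ 1 := by simpa using ht 0
  -- nilpotent
  obtain ⟨V, hV⟩ : ∃ V : ℕ → Submodule ℂ X, V = fun j => Submodule.span ℂ (y '' {m | m < j}) :=
    ⟨_, rfl⟩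
  have hKV : ∀ j, ∀ x ∈ V (j + 1), K x ∈ V j := by
    intro j x hx
    rw [hV] at hx
    refine Submodule.span_induction ?_ ?_ ?_ ?_ hx
    · rintro _ ⟨m, hm, rfl⟩
      rw [hK, sum_apply]
      refine Submodule.sum_mem _ fun n _ => ?_
      rw [ContinuousLinearMap.smulRight_apply]
      by_cases hnm : m ≤ n
      · rw [hg n m hnm, zero_smul]
        exact Submodule.zero_mem _
      · rw [hV]
        refine Submodule.smul_mem _ _ (Submodule.subset_span ⟨n, ?_, rfl⟩)
        have h1 : m < j + 1 := hm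
        show n < j
        omega
    · rw [map_zero]
      exact Submodule.zero_mem _
    · intro a b _ _ ha hb
      rw [map_add]
      exact Submodule.add_mem _ ha hb
    · intro a b _ hb
      rw [map_smul]
      exact Submodule.smul_mem _ _ hb
  have hKN : ∀ x, K x ∈ V N := by
    intro x
    rw [hK, sum_apply]
    refine Submodule.sum_mem _ fun n hn => ?_
    rw [Finset.mem_range] at hn
    rw [ContinuousLinearMap.smulRight_apply, hV]
    exact Submodule.smul_mem _ _ (Submodule.subset_span ⟨n, hn, rfl⟩)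
  have hpow : ∀ j, j ≤ N → ∀ x, (K ^ (j + 1)) x ∈ V (N - j) := by
    intro j
    induction j with
    | zero =>
      intro _ x
      rw [zero_add, pow_one]
      exact hKN x
    | succ j ih =>
      intro hj x
      rw [pow_succ']
      show K ((K ^ (j + 1)) x) ∈ _
      apply hKV
      have h1 := ih (by omega) x
      have h2 : N - (j + 1) + 1 = N - j := by omega
      rw [h2]
      exact h1
  have hnil : K ^ (N + 1) = 0 := by
    ext x
    have h1 := hpow N le_rfl x
    rw [Nat.sub_self, hV] at h1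
    simp only [Nat.not_lt_zero, ofPred_false, image_empty, Submodule.span_empty,
      Submodule.mem_bot] at h1
    rw [h1]
    rfl
  -- inverse of `w - K`
  obtain ⟨w, hw⟩ : ∃ w : ℂ, w = (1 / 2 : ℂ) ^ N := ⟨_, rfl⟩
  have hw0 : w ≠ 0 := by
    rw [hw]
    exact pow_ne_zero _ (by norm_num)
  have hwn : ‖w⁻¹‖ = 2 ^ N := by
    have h1 : ‖(1 / 2 : ℂ)‖ = 1 / 2 := by
      rw [norm_div, norm_one, Complex.norm_ofNat]
    rw [hw, norm_inv, norm_pow, h1, one_div, inv_pow, inv_inv]
  obtain ⟨x, hx⟩ : ∃ x : X →L[ℂ] X, x = w⁻¹ • K := ⟨_, rfl⟩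
  have hxp : x ^ (N + 1) = 0 := by
    rw [hx, smul_pow, hnil, smul_zero]
  obtain ⟨G, hG⟩ : ∃ G : X →L[ℂ] X, G = ∑ i ∈ Finset.range (N + 1), x ^ i := ⟨_, rfl⟩
  have hG1 : G * (1 - x) = 1 := by
    rw [hG, geom_sum_mul_neg, hxp, sub_zero]
  have hG2 : (1 - x) * G = 1 := by
    rw [hG, mul_neg_geom_sum, hxp, sub_zero]
  have hxn : ‖x‖ ≤ 2 ^ N := by
    rw [hx, norm_smul, hwn]
    have : (0 : ℝ) ≤ 2 ^ N := by positivity
    nlinarith
  have hGn : ‖G‖ ≤ (N + 1) * 2 ^ (N * N) := by
    rw [hG]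
    refine (norm_sum_le _ _).trans ?_
    have h1 : ∀ i ∈ Finset.range (N + 1), ‖x ^ i‖ ≤ 2 ^ (N * N) := by
      intro i hi
      rw [Finset.mem_range] at hi
      rcases Nat.eq_zero_or_pos i with h0 | h0
      · rw [h0, pow_zero]
        refine ContinuousLinearMap.norm_id_le.trans ?_
        exact one_le_pow₀ (by norm_num)
      · refine (norm_pow_le' x h0).trans ?_
        calc ‖x‖ ^ i ≤ (2 ^ N) ^ i := pow_le_pow_left₀ (norm_nonneg _) hxn i
          _ = 2 ^ (N * i) := by rw [← pow_mul]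
          _ ≤ 2 ^ (N * N) := pow_le_pow_right₀ (by norm_num) (Nat.mul_le_mul_left _ (by omega))
    refine (Finset.sum_le_sum h1).trans ?_
    rw [Finset.sum_const, Finset.card_range, nsmul_eq_mul]
    push_cast
    exact le_rfl
  obtain ⟨u, hu⟩ : ∃ u : (X →L[ℂ] X)ˣ, u = ⟨w • (1 - x), w⁻¹ • G, by
      rw [smul_mul_smul_comm, mul_inv_cancel₀ hw0, one_smul, hG2], by
      rw [smul_mul_smul_comm, inv_mul_cancel₀ hw0, one_smul, hG1]⟩ := ⟨_, rfl⟩
  have huv : (u : X →L[ℂ] X) = w • (1 : X →L[ℂ] X) - K := by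
    rw [hu]
    show w • (1 - x) = _
    rw [smul_sub, hx, smul_smul, mul_inv_cancel₀ hw0, one_smul]
  have hui : ‖((u⁻¹ : (X →L[ℂ] X)ˣ) : X →L[ℂ] X)‖ ≤ 2 ^ N * ((N + 1) * 2 ^ (N * N)) := by
    rw [hu]
    show ‖w⁻¹ • G‖ ≤ _
    rw [norm_smul, hwn]
    exact mul_le_mul_of_nonneg_left hGn (by positivity)
  -- the tail
  have hR : ‖∑' n, (g n).smulRight (y n) - K‖ ≤ (1 / 8) ^ ((N + 1) ^ 2) := by
    have h1 : ∑' n, (g n).smulRight (y n) - K = ∑' n, (g (n + N)).smulRight (y (n + N)) := by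
      rw [hK, ← hsr.sum_add_tsum_nat_add N]
      abel
    rw [h1]
    have h2 : HasSum (fun n : ℕ => (1 / 2 : ℝ) ^ (n + N + 1) * (1 / 8) ^ ((N + 1) ^ 2))
        ((∑' n, (1 / 2 : ℝ) ^ (n + N + 1)) * (1 / 8) ^ ((N + 1) ^ 2)) := by
      have h3 : Summable fun n : ℕ => (1 / 2 : ℝ) ^ (n + N + 1) := by
        have := (summable_nat_add_iff N).2 hs
        exact this
      exact h3.hasSum.mul_right _
    refine (tsum_of_norm_bounded h2 fun n => (hb (n + N)).trans ?_).trans ?_
    · refine mul_le_mul_of_nonneg_left ?_ (by positivity)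
      refine pow_le_pow_of_le_one (by norm_num) (by norm_num) ?_
      exact Nat.pow_le_pow_left (by omega) 2
    · refine mul_le_of_le_one_left (by positivity) (ht N)
  rcases subsingleton_or_nontrivial X with hX | hX
  · refine ⟨1, ?_⟩
    ext v
    exact Subsingleton.elim _ _
  have hkey : ‖(w • (1 : X →L[ℂ] X) - ∑' n, (g n).smulRight (y n)) - u‖ <
      ‖((u⁻¹ : (X →L[ℂ] X)ˣ) : X →L[ℂ] X)‖⁻¹ := by
    have h1 : (w • (1 : X →L[ℂ] X) - ∑' n, (g n).smulRight (y n)) - u =
        -(∑' n, (g n).smulRight (y n) - K) := by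
      rw [huv]
      abel
    rw [h1, norm_neg]
    have h2 : 0 < ‖((u⁻¹ : (X →L[ℂ] X)ˣ) : X →L[ℂ] X)‖ := Units.norm_pos _
    rw [← one_div, lt_div_iff₀ h2]
    have h3 : ((N : ℝ) + 1) ≤ 2 ^ N := by
      have h4 : N + 1 ≤ 2 ^ N := Nat.lt_two_pow_self
      exact_mod_cast h4
    calc ‖∑' n, (g n).smulRight (y n) - K‖ * ‖((u⁻¹ : (X →L[ℂ] X)ˣ) : X →L[ℂ] X)‖
        ≤ (1 / 8) ^ ((N + 1) ^ 2) * (2 ^ N * ((N + 1) * 2 ^ (N * N))) :=
          mul_le_mul hR hui (norm_nonneg _) (by positivity)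
      _ ≤ (1 / 8) ^ ((N + 1) ^ 2) * (2 ^ N * (2 ^ N * 2 ^ (N * N))) := by gcongr
      _ ≤ (1 / 8) ^ ((N + 1) ^ 2) * 2 ^ ((N + 1) ^ 2) := by
          refine mul_le_mul_of_nonneg_left ?_ (by positivity)
          rw [← pow_add, ← pow_add]
          exact pow_le_pow_right₀ (by norm_num) (by nlinarith)
      _ = (1 / 4) ^ ((N + 1) ^ 2) := by
          rw [← mul_pow]
          norm_num
      _ < 1 := pow_lt_one₀ (by norm_num) (by norm_num) (by positivity)
  have h2 := (u.ofNearby _ hkey).isUnit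
  rw [← hw]
  exact h2

/-- if `X` has property (B) then every complemented separable subspace is finite dimensional -/
theorem finiteDimensional_of_propB [CompleteSpace X] (hB : PropB X) (P : X →L[ℂ] X)
    (hP : ∀ x, P (P x) = P x) (hsep : TopologicalSpace.IsSeparable (range P)) :
    FiniteDimensional ℂ (LinearMap.range P.toLinearMap) := by
  by_contra hinf
  obtain ⟨y, f, hy, hf0, hf1, hd⟩ := exists_triangular (LinearMap.range P.toLinearMap) hsep hinf
  have hPy : ∀ n, P (y n) = y n := by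
    intro n
    obtain ⟨x, hx⟩ := hy n
    have h1 : P x = y n := hx
    rw [← h1, hP]
  obtain ⟨c, hc⟩ : ∃ c : ℕ → ℝ, c = fun n => (1 / 2) ^ (n + 1) * (1 / 8) ^ ((n + 1) ^ 2) /
    (1 + ‖((f (n + 1)).comp P).smulRight (y n)‖) := ⟨_, rfl⟩
  have hc0 : ∀ n, 0 < c n := fun n => by
    rw [hc]
    positivity
  obtain ⟨g, hg⟩ : ∃ g : ℕ → StrongDual ℂ X, g = fun n => (c n : ℂ) • ((f (n + 1)).comp P) :=
    ⟨_, rfl⟩
  have hgx : ∀ n x, g n x = (c n : ℂ) * f (n + 1) (P x) := fun n x => by rw [hg]; rfl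
  have hgy : ∀ n m, m ≤ n → g n (y m) = 0 := by
    intro n m hm
    rw [hgx, hPy, hf0 (n + 1) m (by omega), mul_zero]
  have hgb : ∀ n, ‖(g n).smulRight (y n)‖ ≤ (1 / 2) ^ (n + 1) * (1 / 8) ^ ((n + 1) ^ 2) := by
    intro n
    have h1 : (g n).smulRight (y n) = (c n : ℂ) • ((f (n + 1)).comp P).smulRight (y n) := by
      ext x
      simp only [ContinuousLinearMap.smulRight_apply, hgx, smul_apply,
        ContinuousLinearMap.comp_apply, mul_smul]
    rw [h1, norm_smul, Complex.norm_real, Real.norm_of_nonneg (hc0 n).le, hc]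
    have h2 : 0 < 1 + ‖((f (n + 1)).comp P).smulRight (y n)‖ := by positivity
    rw [div_mul_eq_mul_div, div_le_iff₀ h2]
    refine mul_le_mul_of_nonneg_left ?_ (by positivity)
    linarith
  have hsr : Summable fun n => (g n).smulRight (y n) := by
    have hs : Summable fun n : ℕ => (1 / 2 : ℝ) ^ (n + 1) := by
      have h1 := (summable_geometric_of_lt_one (r := (1 / 2 : ℝ)) (by norm_num)
        (by norm_num)).mul_right (1 / 2)
      exact h1.congr fun n => by rw [pow_succ]
    exact Summable.of_norm_bounded hs fun n => (hgb n).trans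
      (mul_le_of_le_one_right (by positivity) (pow_le_one₀ (by norm_num) (by norm_num)))
  obtain ⟨K, hK⟩ : ∃ K : X →L[ℂ] X, K = ∑' n, (g n).smulRight (y n) := ⟨_, rfl⟩
  have hKs : ∀ x, HasSum (fun n => g n x • y n) (K x) := by
    intro x
    have h1 := (ContinuousLinearMap.apply ℂ X x).hasSum hsr.hasSum
    rw [hK]
    exact h1
  have hKP : ∀ x, K (P x) = K x := by
    intro x
    have h1 := hKs (P x)
    have h2 : (fun n => g n (P x) • y n) = fun n => g n x • y n := by
      funext n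
      rw [hgx, hgx, hP]
    rw [h2] at h1
    exact h1.unique (hKs x)
  have hPK : ∀ x, P (K x) = K x := by
    intro x
    have h1 := P.hasSum (hKs x)
    have h2 : (fun n => P (g n x • y n)) = fun n => g n x • y n := by
      funext n
      rw [map_smul, hPy]
    rw [h2] at h1
    exact h1.unique (hKs x)
  obtain ⟨T, hT⟩ : ∃ T : X →L[ℂ] X, T = K + (ContinuousLinearMap.id ℂ X - P) := ⟨_, rfl⟩
  have hTx : ∀ x, T x = K x + (x - P x) := fun x => by rw [hT]; rfl
  have hy0 : y 0 ≠ 0 := by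
    intro h
    apply hf1 0
    rw [h, map_zero]
  have hTy0 : T (y 0) = 0 := by
    rw [hTx, hPy, sub_self, add_zero]
    have h1 := hKs (y 0)
    have h2 : (fun n => g n (y 0) • y n) = fun _ => 0 := by
      funext n
      rw [hgy n 0 (Nat.zero_le _), zero_smul]
    rw [h2] at h1
    exact h1.unique hasSum_zero
  -- the points `2 ^ (-N)` are not in the spectrum
  have hout : ∀ N : ℕ, (1 / 2 : ℂ) ^ (N + 1) ∈ (spectrum ℂ T)ᶜ := by
    intro N
    have hK1 := isUnit_triangular y g hgy hgb (N + 1)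
    obtain ⟨w, hw⟩ : ∃ w : ℂ, w = (1 / 2 : ℂ) ^ (N + 1) := ⟨_, rfl⟩
    rw [← hw, ← hK] at hK1
    rw [← hw]
    have hw1 : w - 1 ≠ 0 := by
      intro h
      have h1 : ‖w‖ = (1 / 2) ^ (N + 1) := by
        have h1 : ‖(1 / 2 : ℂ)‖ = 1 / 2 := by
          rw [norm_div, norm_one, Complex.norm_ofNat]
        rw [hw, norm_pow, h1]
      rw [sub_eq_zero.1 h, norm_one] at h1
      have h2 : ((1 : ℝ) / 2) ^ (N + 1) < 1 := pow_lt_one₀ (by norm_num) (by norm_num) (by omega)
      linarith
    rw [ContinuousLinearMap.isUnit_iff_bijective] at hK1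
    have hKx : ∀ x, (w • (1 : X →L[ℂ] X) - K) x = w • x - K x := fun x => rfl
    rw [mem_compl_iff, spectrum.mem_iff, not_not, ContinuousLinearMap.isUnit_iff_bijective]
    have hTw : ∀ x, (algebraMap ℂ (X →L[ℂ] X) w - T) x = w • x - T x := fun x => rfl
    constructor
    · rw [injective_iff_map_eq_zero]
      intro x hx
      rw [hTw, hTx] at hx
      have h1 := congrArg P hx
      rw [map_sub, map_add, map_sub, hPK, hP, sub_self, add_zero, map_smul, map_zero] at h1
      have h2 : P x = 0 := by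
        apply hK1.1
        rw [hKx, hKP, h1, map_zero]
      have h3 : K x = 0 := by
        rw [← hKP, h2, map_zero]
      rw [h3, h2, sub_zero, zero_add] at hx
      have h4 : (w - 1) • x = 0 := by
        rw [sub_smul, one_smul, hx]
      exact (smul_eq_zero.1 h4).resolve_left hw1
    · intro v
      obtain ⟨a, ha⟩ := hK1.2 (P v)
      rw [hKx] at ha
      refine ⟨P a + (w - 1)⁻¹ • (v - P v), ?_⟩
      have h1 : w • P a - K (P a) = P v := by
        have h2 := congrArg P ha
        rw [map_sub, map_smul, hPK, hP] at h2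
        rw [hKP]
        exact h2
      have h2 : P (v - P v) = 0 := by rw [map_sub, hP, sub_self]
      have h3 : K (v - P v) = 0 := by rw [← hKP, h2, map_zero]
      rw [hTw, hTx, map_add, map_add, map_smul, map_smul, hP, h2, h3, smul_zero,
        add_zero, add_zero]
      have h4 : w • (P a + (w - 1)⁻¹ • (v - P v)) -
          (K (P a) + (P a + (w - 1)⁻¹ • (v - P v) - P a)) =
          (w • P a - K (P a)) + (w - 1) • ((w - 1)⁻¹ • (v - P v)) := by
        rw [smul_add, sub_smul w 1, one_smul]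
        abel
      rw [h4, h1, smul_smul, mul_inv_cancel₀ hw1, one_smul]
      abel
  have hmem : (0 : ℂ) ∈ spectrum ℂ T := by
    rw [spectrum.mem_iff, ContinuousLinearMap.isUnit_iff_bijective]
    intro h
    apply hy0
    apply h.1
    have h1 : (algebraMap ℂ (X →L[ℂ] X) 0 - T) (y 0) = (0 : ℂ) • y 0 - T (y 0) := rfl
    rw [h1, hTy0, zero_smul, sub_zero, map_zero]
  have hfr : (0 : ℂ) ∈ frontier (spectrum ℂ T) := by
    rw [frontier_eq_closure_inter_closure]
    refine ⟨subset_closure hmem, ?_⟩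
    have h1 : Tendsto (fun N : ℕ => (1 / 2 : ℂ) ^ (N + 1)) atTop (𝓝 0) := by
      have h2 : Tendsto (fun N : ℕ => (1 / 2 : ℂ) ^ N) atTop (𝓝 0) := by
        apply tendsto_pow_atTop_nhds_zero_of_norm_lt_one
        rw [norm_div, norm_one, Complex.norm_ofNat]
        norm_num
      exact h2.comp (tendsto_add_atTop_nat 1)
    exact mem_closure_of_tendsto h1 (Eventually.of_forall hout)
  obtain ⟨F, hF, hFT⟩ := hB T 0 hfr
  apply hF
  have hFQ : ∀ v, F v = F (P v) := by
    intro v
    have h1 := hFT (v - P v)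
    have h2 : P (v - P v) = 0 := by rw [map_sub, hP, sub_self]
    have h3 : K (v - P v) = 0 := by rw [← hKP, h2, map_zero]
    rw [hTx, h2, h3, sub_zero, zero_add, zero_mul, map_sub, sub_eq_zero] at h1
    exact h1
  have hFK : ∀ m, F (K (y m)) = 0 := by
    intro m
    have h1 := hFT (y m)
    rw [hTx, hPy, sub_self, add_zero, zero_mul] at h1
    exact h1
  have hFy : ∀ m, F (y m) = 0 := by
    intro m
    induction m using Nat.strong_induction_on with
    | _ m ih =>
      have h1 : K (y (m + 1)) = ∑ n ∈ Finset.range (m + 1), g n (y (m + 1)) • y n := by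
        refine (hKs (y (m + 1))).unique (hasSum_sum_of_ne_finset_zero fun n hn => ?_)
        rw [Finset.mem_range, not_lt] at hn
        rw [hgy n (m + 1) hn, zero_smul]
      have h2 := hFK (m + 1)
      rw [h1, map_sum, Finset.sum_range_succ] at h2
      have h3 : ∑ n ∈ Finset.range m, F (g n (y (m + 1)) • y n) = 0 := by
        apply Finset.sum_eq_zero
        intro n hn
        rw [map_smul, ih n (Finset.mem_range.1 hn), smul_zero]
      rw [h3, zero_add, map_smul, smul_eq_mul] at h2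
      rcases mul_eq_zero.1 h2 with h4 | h4
      · exfalso
        rw [hgx, hPy] at h4
        rcases mul_eq_zero.1 h4 with h5 | h5
        · exact (hc0 m).ne' (by exact_mod_cast h5)
        · exact hf1 (m + 1) h5
      · exact h4
  have hFs : ∀ x ∈ closure (Submodule.span ℂ (range y) : Set X), F x = 0 := by
    have h1 : closure (Submodule.span ℂ (range y) : Set X) ⊆ {x | F x = 0} := by
      apply closure_minimal
      · intro x hx
        refine Submodule.span_induction ?_ ?_ ?_ ?_ hx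
        · rintro _ ⟨m, rfl⟩
          exact hFy m
        · exact map_zero F
        · intro a b _ _ ha hb
          show F (a + b) = 0
          rw [map_add, ha, hb, add_zero]
        · intro a b _ hb
          show F (a • b) = 0
          rw [map_smul, hb, smul_zero]
      · exact isClosed_singleton.preimage F.continuous
    exact fun x hx => h1 hx
  ext v
  rw [hFQ v]
  exact hFs _ (hd ⟨v, rfl⟩)

end

end Pool.Agent.T2h62.BB
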